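import Mathlib

/-! Universal null sequence of permutations, and absorption of block sequences. -/

namespace Pool.Agent.Lib_MP_412c32_gt

open Function

/-- Finite types: a number of points and a finite list of permutations (extended by the identity). -/
abbrev Ty : Type := Σ k : ℕ, List (Equiv.Perm (Fin k))

/-- the `n`-th permutation of a type -/
def act (T : Ty) (n : ℕ) : Equiv.Perm (Fin T.1) := T.2.getD n 1

/-- the sequence of permutations given by a family of types -/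
def U {I : Type} (τ : I → Ty) (n : ℕ) : Equiv.Perm (Σ i : I, Fin (τ i).1) :=
  Equiv.sigmaCongrRight fun i => act (τ i) n

/-- the space of the universal sequence -/
abbrev Om : Type := Σ p : Ty × ℕ, Fin p.1.1

/-- the universal sequence -/
def u (n : ℕ) : Equiv.Perm Om := U (fun p : Ty × ℕ => p.1) n

theorem exists_relabel {I J : Type} (τ : I → Ty) (σ : J → Ty) (ψ : I ≃ J) (h : ∀ i, σ (ψ i) = τ i) :
    ∃ Φ : (Σ i : I, Fin (τ i).1) ≃ (Σ j : J, Fin (σ j).1), ∀ n z, Φ (U τ n z) = U σ n (Φ z) := by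
  obtain rfl : τ = σ ∘ ψ := funext fun i => (h i).symm
  refine ⟨Equiv.sigmaCongrLeft (β := fun j => Fin (σ j).1) ψ, ?_⟩
  intro n z
  rfl

instance : Countable Ty := inferInstance

theorem exists_psi (T : ℕ → Ty) : ∃ ψ : (ℕ ⊕ (Ty × ℕ)) ≃ (Ty × ℕ),
    ∀ z, (ψ z).1 = Sum.elim T Prod.fst z := by
  have hfib : ∀ t : Ty, Nonempty ({z : ℕ ⊕ (Ty × ℕ) // Sum.elim T Prod.fst z = t} ≃
      {p : Ty × ℕ // p.1 = t}) := by
    intro t
    have : Infinite {z : ℕ ⊕ (Ty × ℕ) // Sum.elim T Prod.fst z = t} :=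
      Infinite.of_injective (fun n : ℕ => ⟨Sum.inr (t, n), rfl⟩) (by
        intro a b hab
        simpa using hab)
    have : Infinite {p : Ty × ℕ // p.1 = t} :=
      Infinite.of_injective (fun n : ℕ => ⟨(t, n), rfl⟩) (by
        intro a b hab
        simpa using hab)
    exact nonempty_equiv_of_countable
  refine ⟨Equiv.ofFiberEquiv (fun t => Classical.choice (hfib t)), ?_⟩
  intro z
  exact Equiv.ofFiberEquiv_map _ z

/-- absorption -/
theorem absorb (T : ℕ → Ty) : ∃ Φ : ((Σ i : ℕ, Fin (T i).1) ⊕ Om) ≃ Om,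
    ∀ n z, Φ (Equiv.sumCongr (U T n) (u n) z) = u n (Φ z) := by
  obtain ⟨ψ, hψ⟩ := exists_psi T
  obtain ⟨Φ, hΦ⟩ := exists_relabel (Sum.elim T Prod.fst) (fun p : Ty × ℕ => p.1) ψ hψ
  refine ⟨(Equiv.sumSigmaDistrib (fun z : ℕ ⊕ (Ty × ℕ) => Fin (Sum.elim T Prod.fst z).1)).symm.trans Φ, ?_⟩
  rintro n (⟨i, x⟩ | ⟨p, x⟩)
  · exact hΦ n ⟨Sum.inl i, x⟩
  · exact hΦ n ⟨Sum.inr p, x⟩

/-- A sequence of permutations of `X` is a block sequence if `X` is partitioned into finite blocks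
preserved by all of them and every point is fixed by all but finitely many of them. -/
def IsBlock {X : Type} (w : ℕ → Equiv.Perm X) : Prop :=
  ∃ e : X → ℕ, (∀ j, {x | e x = j}.Finite) ∧ (∀ n x, e (w n x) = e x) ∧
    (∀ x, ∀ᶠ n in Filter.atTop, w n x = x)

theorem blockIso {X : Type} {w : ℕ → Equiv.Perm X} (hw : IsBlock w) :
    ∃ (T : ℕ → Ty) (φ : X ≃ Σ j : ℕ, Fin (T j).1), ∀ n x, φ (w n x) = U T n (φ x) := by
  classical
  obtain ⟨e, hfin, hinv, hev⟩ := hw
  have hF : ∀ j, Finite {x // e x = j} := fun j => (hfin j).to_subtype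
  have hM : ∀ j, ∃ M, ∀ n ≥ M, ∀ x, e x = j → w n x = x := by
    intro j
    have h1 : ∀ᶠ n in Filter.atTop, ∀ x ∈ {x | e x = j}, w n x = x :=
      (Set.Finite.eventually_all (hfin j)).2 fun x _ => hev x
    obtain ⟨M, hM⟩ := Filter.eventually_atTop.1 h1
    exact ⟨M, fun n hn x hx => hM n hn x hx⟩
  choose M hM using hM
  let φ : ∀ j, {x // e x = j} ≃ Fin (Nat.card {x // e x = j}) := fun j => Finite.equivFin _
  let r : ∀ (j n : ℕ), Equiv.Perm {x // e x = j} := fun j n =>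
    (w n).subtypePerm (fun x => by rw [hinv])
  let T : ℕ → Ty := fun j => ⟨Nat.card {x // e x = j},
    (List.range (M j)).map (fun n => (φ j).permCongr (r j n))⟩
  have hact : ∀ j n, act (T j) n = (φ j).permCongr (r j n) := by
    intro j n
    by_cases hn : n < M j
    · show List.getD ((List.range (M j)).map (fun n => (φ j).permCongr (r j n))) n 1 = _
      rw [List.getD_eq_getElem _ _ (by simpa using hn)]
      simp
    · show List.getD ((List.range (M j)).map (fun n => (φ j).permCongr (r j n))) n 1 = _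
      rw [List.getD_eq_default _ _ (by simpa using hn)]
      have : r j n = 1 := by
        ext ⟨x, hx⟩
        exact hM j n (not_lt.1 hn) x hx
      rw [this]
      ext x
      simp [Equiv.permCongr_apply]
  refine ⟨T, (Equiv.sigmaFiberEquiv e).symm.trans (Equiv.sigmaCongrRight φ), ?_⟩
  intro n x
  show (⟨e (w n x), φ _ ⟨w n x, rfl⟩⟩ : Σ j : ℕ, Fin (T j).1) = ⟨e x, act (T (e x)) n (φ _ ⟨x, rfl⟩)⟩
  rw [hact]
  have h2 : (φ (e x)).permCongr (r (e x) n) (φ _ ⟨x, rfl⟩) = φ (e x) (⟨w n x, hinv n x⟩ : {y // e y = e x}) := by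
    rw [Equiv.permCongr_apply, Equiv.symm_apply_apply]
    rfl
  rw [h2]
  have h3 : ∀ (j : ℕ) (h : e (w n x) = j), (⟨e (w n x), φ _ ⟨w n x, rfl⟩⟩ : Σ j : ℕ, Fin (T j).1) = ⟨j, φ j ⟨w n x, h⟩⟩ := by
    rintro j rfl
    rfl
  exact h3 _ (hinv n x)

/-- A block sequence on `X`, together with the universal sequence, is the universal sequence. -/
theorem block_absorb {X : Type} {w : ℕ → Equiv.Perm X} (hw : IsBlock w) :
    ∃ Φ : (X ⊕ Om) ≃ Om, ∀ n z, Φ (Equiv.sumCongr (w n) (u n) z) = u n (Φ z) := by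
  obtain ⟨T, φ, hφ⟩ := blockIso hw
  obtain ⟨Φ, hΦ⟩ := absorb T
  refine ⟨(Equiv.sumCongr φ (Equiv.refl _)).trans Φ, ?_⟩
  rintro n (x | y)
  · have := hΦ n (Sum.inl (φ x))
    simp only [Equiv.sumCongr_apply, Sum.map_inl] at this
    simp only [Equiv.trans_apply, Equiv.sumCongr_apply, Sum.map_inl, hφ]
    exact this
  · have := hΦ n (Sum.inr y)
    simpa using this

end Pool.Agent.Lib_MP_412c32_gt
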