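import Mathlib
import Pool.Agent.Lib_MP_412c32_gt.Universal

/-! Block sequences in `Sym(ℕ)` as products of conjugates of the universal sequence. -/

namespace Pool.Agent.Lib_MP_412c32_gt

open Function Filter Topology

theorem om_equiv : Nonempty (Om ≃ ℕ) := by
  have : Infinite Om := by
    refine Infinite.of_injective (fun n : ℕ => (⟨(⟨1, []⟩, n), (0 : Fin 1)⟩ : Om)) ?_
    intro a b hab
    have := congrArg (fun z : Om => z.1.2) hab
    simpa using this
  exact nonempty_equiv_of_countable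

/-- a numbering of the space of the universal sequence -/
noncomputable def om : Om ≃ ℕ := Classical.choice om_equiv

/-- the universal null sequence in `Sym(ℕ)` -/
noncomputable def s (n : ℕ) : Equiv.Perm ℕ := om.permCongr (u n)

theorem conj_aux (p : ℕ → Prop) [DecidablePred p] (χ : {x // ¬ p x} ≃ Om)
    {w : ℕ → Equiv.Perm {x // p x}} (hw : IsBlock w) :
    ∃ g : Equiv.Perm ℕ, ∀ n, Equiv.Perm.subtypeCongr (w n) (χ.symm.permCongr (u n)) = g * s n * g⁻¹ := by
  obtain ⟨Φ, hΦ⟩ := block_absorb hw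
  set κ : ℕ ≃ Om := (Equiv.sumCompl p).symm.trans ((Equiv.sumCongr (Equiv.refl _) χ).trans Φ) with hκ
  have hκn : ∀ n x, κ (Equiv.Perm.subtypeCongr (w n) (χ.symm.permCongr (u n)) x) = u n (κ x) := by
    intro n x
    rw [hκ]
    simp only [Equiv.trans_apply, Equiv.Perm.subtypeCongr, Equiv.permCongr_apply,
      Equiv.symm_apply_apply]
    rw [← hΦ]
    congr 1
    rcases (Equiv.sumCompl p).symm x with y | y
    · simp
    · simp [Equiv.permCongr_apply]
  refine ⟨(κ.trans om).symm, fun n => ?_⟩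
  rw [eq_mul_inv_iff_mul_eq]
  apply Equiv.ext
  intro x
  rw [Equiv.Perm.mul_apply, Equiv.Perm.mul_apply, Equiv.eq_symm_apply]
  have h2 : s n x = om (u n (om.symm x)) := rfl
  rw [h2, Equiv.trans_apply, hκn]
  congr 2
  rw [Equiv.eq_symm_apply, ← Equiv.trans_apply, Equiv.apply_symm_apply]

theorem block_one {X : Type} {w : ℕ → Equiv.Perm X} (hw : IsBlock w) :
    IsBlock (fun _ => (1 : Equiv.Perm X)) := by
  obtain ⟨e, he, _, _⟩ := hw
  exact ⟨e, he, fun _ _ => rfl, fun _ => Filter.Eventually.of_forall fun _ => rfl⟩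

theorem ofSubtype_eq (p : ℕ → Prop) [DecidablePred p] (hinf : Infinite {x // ¬ p x})
    {w : ℕ → Equiv.Perm {x // p x}} (hw : IsBlock w) :
    ∃ g h : Equiv.Perm ℕ, ∀ n, Equiv.Perm.ofSubtype (w n) = (g * s n * g⁻¹) * (h * s n * h⁻¹)⁻¹ := by
  obtain ⟨χ⟩ : Nonempty ({x // ¬ p x} ≃ Om) := by
    have : Nonempty ({x // ¬ p x} ≃ ℕ) := nonempty_equiv_of_countable
    obtain ⟨f⟩ := this
    exact ⟨f.trans om.symm⟩
  obtain ⟨g, hg⟩ := conj_aux p χ hw
  obtain ⟨h, hh⟩ := conj_aux p χ (block_one hw)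
  refine ⟨g, h, fun n => ?_⟩
  rw [← hg, ← hh, eq_mul_inv_iff_mul_eq]
  apply Equiv.ext
  intro x
  rw [Equiv.Perm.mul_apply]
  by_cases hx : p x
  · rw [Equiv.Perm.subtypeCongr.left_apply _ _ hx, Equiv.Perm.subtypeCongr.left_apply _ _ hx]
    simp only [Equiv.Perm.one_apply]
    rw [Equiv.Perm.ofSubtype_apply_of_mem _ hx]
  · rw [Equiv.Perm.subtypeCongr.right_apply _ _ hx, Equiv.Perm.subtypeCongr.right_apply _ _ hx]
    exact Equiv.Perm.ofSubtype_apply_of_not_mem _ ((χ.symm.permCongr (u n)) ⟨x, hx⟩).2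

/-- convergence of conjugates in a group topology -/
theorem tendsto_ofSubtype (t : TopologicalSpace (Equiv.Perm ℕ)) (ht : IsTopologicalGroup (Equiv.Perm ℕ))
    (hs : Tendsto s atTop (𝓝 1)) (p : ℕ → Prop) [DecidablePred p] (hinf : Infinite {x // ¬ p x})
    {w : ℕ → Equiv.Perm {x // p x}} (hw : IsBlock w) :
    Tendsto (fun n => Equiv.Perm.ofSubtype (w n)) atTop (𝓝 1) := by
  obtain ⟨g, h, hgh⟩ := ofSubtype_eq p hinf hw
  simp only [hgh]
  have h1 : Tendsto (fun n => g * s n * g⁻¹) atTop (𝓝 (g * 1 * g⁻¹)) :=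
    (hs.const_mul g).mul_const g⁻¹
  have h2 : Tendsto (fun n => h * s n * h⁻¹) atTop (𝓝 (h * 1 * h⁻¹)) :=
    (hs.const_mul h).mul_const h⁻¹
  have h3 := h1.mul h2.inv
  simpa using h3

theorem ofSub_apply (q : ℕ → Prop) [DecidablePred q] (f : Equiv.Perm ℕ) (hq : ∀ x, q (f x) ↔ q x)
    (x : ℕ) : Equiv.Perm.ofSubtype (f.subtypePerm hq) x = if q x then f x else x := by
  by_cases hx : q x
  · rw [Equiv.Perm.ofSubtype_apply_of_mem _ hx, if_pos hx]
    rfl
  · rw [Equiv.Perm.ofSubtype_apply_of_not_mem _ hx, if_neg hx]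

theorem tendsto_block (t : TopologicalSpace (Equiv.Perm ℕ)) (ht : IsTopologicalGroup (Equiv.Perm ℕ))
    (hs : Tendsto s atTop (𝓝 1)) {w : ℕ → Equiv.Perm ℕ} {e : ℕ → ℕ} (hfin : ∀ j, {x | e x = j}.Finite)
    (hinv : ∀ n x, e (w n x) = e x) (hev : ∀ x, ∀ᶠ n in atTop, w n x = x)
    (h0 : {x | e x % 2 = 0}.Infinite) (h1 : {x | ¬ e x % 2 = 0}.Infinite) :
    Tendsto w atTop (𝓝 1) := by
  classical
  have key : ∀ q : ℕ → Prop, (∀ n x, q (w n x) ↔ q x) → ∀ hq : ∀ n x, q (w n x) ↔ q x,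
      Infinite {x // ¬ q x} →
      Tendsto (fun n => Equiv.Perm.ofSubtype ((w n).subtypePerm (p := q) (hq n))) atTop (𝓝 1) := by
    intro q _ hq hinf
    refine tendsto_ofSubtype t ht hs q hinf ?_
    refine ⟨fun x => e x, fun j => ?_, fun n x => hinv n x, fun x => ?_⟩
    · exact (hfin j).preimage Subtype.val_injective.injOn
    · filter_upwards [hev x] with n hn
      exact Subtype.ext hn
  have hq0 : ∀ n x, (e (w n x) % 2 = 0) ↔ (e x % 2 = 0) := fun n x => by rw [hinv]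
  have hq1 : ∀ n x, (¬ e (w n x) % 2 = 0) ↔ (¬ e x % 2 = 0) := fun n x => by rw [hinv]
  have k0 := key (fun x => e x % 2 = 0) hq0 hq0 h1.to_subtype
  have hinf1 : Infinite {x // ¬ ¬ e x % 2 = 0} := by
    have : {x | ¬ ¬ e x % 2 = 0}.Infinite := by simpa using h0
    exact this.to_subtype
  have k1 := key (fun x => ¬ e x % 2 = 0) hq1 hq1 hinf1
  have := k0.mul k1
  rw [one_mul] at this
  refine this.congr fun n => ?_
  ext x
  rw [Equiv.Perm.mul_apply, ofSub_apply, ofSub_apply]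
  by_cases hx : e x % 2 = 0
  · simp [hx]
  · simp [hx, hinv]

end Pool.Agent.Lib_MP_412c32_gt
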