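import Mathlib
import Pool.Agent.Lib_MP_412c32_gt.Conj

/-! Every sequence `y` in `Sym(ℕ)` such that `y n` fixes `0, …, n-1` is a product of two block
sequences. -/

namespace Pool.Agent.Lib_MP_412c32_gt

open Function Filter Topology

theorem matching (f g : ℕ → ℕ) (hf : ∀ i, {x | f x ≤ i}.Finite) (hg : ∀ i, {x | g x ≤ i}.Finite)
    (hc : ∀ i, {x | f x ≤ i}.ncard = {x | g x ≤ i}.ncard) :
    ∃ a : Equiv.Perm ℕ, (∀ x, f (a x) = g x) ∧
      ∀ i, {x | f x = i} = {x | g x = i} → ∀ x, g x = i → a x = x := by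
  classical
  have hff : ∀ i, {x | f x = i}.Finite := fun i => (hf i).subset fun x hx => le_of_eq hx
  have hgf : ∀ i, {x | g x = i}.Finite := fun i => (hg i).subset fun x hx => le_of_eq hx
  have hsucc : ∀ (h : ℕ → ℕ) (hh : ∀ i, {x | h x ≤ i}.Finite) (i : ℕ),
      {x | h x ≤ i + 1}.ncard = {x | h x ≤ i}.ncard + {x | h x = i + 1}.ncard := by
    intro h hh i
    have h1 : {x | h x = i + 1}.Finite := (hh (i+1)).subset fun x hx => le_of_eq hx
    have h2 : Disjoint {x | h x ≤ i} {x | h x = i + 1} := by
      rw [Set.disjoint_left]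
      intro x hx hx'
      simp only [Set.mem_ofPred_eq] at hx hx'
      omega
    rw [← Set.ncard_union_eq h2 (hh i) h1]
    congr 1
    ext x
    simp only [Set.mem_ofPred_eq, Set.mem_union]
    omega
  have hcard : ∀ i, {x | f x = i}.ncard = {x | g x = i}.ncard := by
    intro i
    cases i with
    | zero =>
      have := hc 0
      simpa using this
    | succ i =>
      have h1 := hc (i+1)
      rw [hsucc f hf i, hsucc g hg i, hc i] at h1
      exact Nat.add_left_cancel h1
  have hex : ∀ i, Nonempty ({x // g x = i} ≃ {x // f x = i}) := by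
    intro i
    have h1 : Finite {x // f x = i} := (hff i).to_subtype
    have h2 : Finite {x // g x = i} := (hgf i).to_subtype
    have h3 : Nat.card {x // g x = i} = Nat.card {x // f x = i} := (hcard i).symm
    exact (Finite.card_eq).1 h3
  let e : ∀ i, {x // g x = i} ≃ {x // f x = i} := fun i =>
    if h : {x | f x = i} = {x | g x = i} then Equiv.setCongr h.symm else Classical.choice (hex i)
  refine ⟨Equiv.ofFiberEquiv e, fun x => Equiv.ofFiberEquiv_map e x, ?_⟩
  intro i hi x hx
  subst hx
  have h1 : Equiv.ofFiberEquiv e x = (e (g x) ⟨x, rfl⟩ : ℕ) := rfl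
  rw [h1]
  have h2 : e (g x) = Equiv.setCongr hi.symm := dif_pos hi
  rw [h2]
  rfl

theorem exists_N (y : ℕ → Equiv.Perm ℕ) (hy : ∀ n, ∀ x < n, y n x = x) :
    ∃ N : ℕ → ℕ, StrictMono N ∧ N 0 = 0 ∧
      ∀ i n x, x < N i → y n x < N (i+1) ∧ (y n).symm x < N (i+1) := by
  have hb : ∀ m, ∃ M, m < M ∧ ∀ n x, x < m → y n x < M ∧ (y n).symm x < M := by
    intro m
    refine ⟨m + 1 + ∑ n ∈ Finset.range m, ∑ x ∈ Finset.range m, (y n x + (y n).symm x), by omega, ?_⟩
    intro n x hx
    by_cases hn : n < m
    · have h1 : y n x + (y n).symm x ≤ ∑ x ∈ Finset.range m, (y n x + (y n).symm x) :=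
        Finset.single_le_sum (f := fun x => y n x + (y n).symm x) (fun _ _ => Nat.zero_le _)
          (Finset.mem_range.2 hx)
      have h2 : ∑ x ∈ Finset.range m, (y n x + (y n).symm x) ≤
          ∑ n ∈ Finset.range m, ∑ x ∈ Finset.range m, (y n x + (y n).symm x) :=
        Finset.single_le_sum (f := fun n => ∑ x ∈ Finset.range m, (y n x + (y n).symm x))
          (fun _ _ => Nat.zero_le _) (Finset.mem_range.2 hn)
      constructor <;> omega
    · have h1 : y n x = x := hy n x (by omega)
      have h2 : (y n).symm x = x := by rw [Equiv.symm_apply_eq, h1]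
      rw [h1, h2]
      constructor <;> omega
  choose M hM1 hM2 using hb
  refine ⟨fun i => Nat.rec 0 (fun _ m => M m) i, strictMono_nat_of_lt_succ fun i => hM1 _, rfl, ?_⟩
  intro i n x hx
  exact hM2 _ n x hx

theorem exists_idx {N : ℕ → ℕ} (hN : StrictMono N) :
    ∃ idx : ℕ → ℕ, ∀ x i, idx x ≤ i ↔ x < N (i+1) := by
  classical
  have hex : ∀ x, ∃ i, x < N (i+1) := fun x => ⟨x, by
    have : x + 1 ≤ N (x+1) := hN.le_apply
    omega⟩
  refine ⟨fun x => Nat.find (hex x), fun x i => ?_⟩
  rw [Nat.find_le_iff]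
  constructor
  · rintro ⟨m, hm, hx⟩
    exact lt_of_lt_of_le hx (hN.monotone (by omega))
  · intro hx
    exact ⟨i, le_rfl, hx⟩

/-- the main decomposition, and its consequence for convergence -/
theorem tendsto_of_fix (t : TopologicalSpace (Equiv.Perm ℕ)) (ht : IsTopologicalGroup (Equiv.Perm ℕ))
    (hs : Tendsto s atTop (𝓝 1)) (y : ℕ → Equiv.Perm ℕ) (hy : ∀ n, ∀ x < n, y n x = x) :
    Tendsto y atTop (𝓝 1) := by
  classical
  obtain ⟨N, hN, hN0, hNy⟩ := exists_N y hy
  obtain ⟨idx, hidx⟩ := exists_idx hN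
  have hnear1 : ∀ n x, idx (y n x) ≤ idx x + 1 := by
    intro n x
    rw [hidx]
    exact (hNy _ n x ((hidx x _).1 le_rfl)).1
  have hnear2 : ∀ n x, idx ((y n).symm x) ≤ idx x + 1 := by
    intro n x
    rw [hidx]
    exact (hNy _ n x ((hidx x _).1 le_rfl)).2
  have hnear3 : ∀ n x, idx x ≤ idx ((y n).symm x) + 1 := by
    intro n x
    have := hnear1 n ((y n).symm x)
    rwa [Equiv.apply_symm_apply] at this
  have hfin : ∀ i, {x | idx x ≤ i}.Finite := by
    intro i
    refine (Set.finite_lt_nat (N (i+1))).subset ?_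
    intro x hx
    exact (hidx x i).1 hx
  let β : ℕ → ℕ → ℕ := fun n x => idx x / 2 + (idx ((y n).symm x) + 1) / 2
  have hβodd : ∀ n j, {x | β n x ≤ 2 * j + 1} = {x | idx x ≤ 2 * j + 1} := by
    intro n j
    ext x
    have h1 := hnear2 n x
    have h2 := hnear3 n x
    simp only [Set.mem_ofPred_eq, β]
    omega
  have hβeven : ∀ n j, {x | β n x ≤ 2 * j} = (y n) '' {x | idx x ≤ 2 * j} := by
    intro n j
    ext x
    have h1 := hnear2 n x
    have h2 := hnear3 n x
    rw [Equiv.image_eq_preimage_symm]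
    simp only [Set.mem_ofPred_eq, Set.mem_preimage, β]
    omega
  have hcum : ∀ n i, {x | β n x ≤ i}.Finite ∧ {x | β n x ≤ i}.ncard = {x | idx x ≤ i}.ncard := by
    intro n i
    rcases Nat.even_or_odd' i with ⟨j, hj | hj⟩
    · subst hj
      rw [hβeven]
      exact ⟨(hfin _).image _, Set.ncard_image_of_injective _ (y n).injective⟩
    · subst hj
      rw [hβodd]
      exact ⟨hfin _, rfl⟩
  have hmatch := fun n => matching (β n) idx (fun i => (hcum n i).1) hfin (fun i => (hcum n i).2)
  choose a ha1 ha2 using hmatch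
  -- the two block functions
  have hae : ∀ n x, idx (a n x) / 2 = idx x / 2 := by
    intro n x
    have h0 := ha1 n x
    have h1 := hnear2 n (a n x)
    have h2 := hnear3 n (a n x)
    simp only [β] at h0
    omega
  have hac : ∀ n x, (idx ((y n).symm (a n x)) + 1) / 2 = (idx x + 1) / 2 := by
    intro n x
    have h0 := ha1 n x
    have h1 := hnear2 n (a n x)
    have h2 := hnear3 n (a n x)
    simp only [β] at h0
    omega
  have hbc : ∀ n x, (idx (((a n)⁻¹ * y n) x) + 1) / 2 = (idx x + 1) / 2 := by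
    intro n x
    have h0 := hac n (((a n)⁻¹ * y n) x)
    have h1 : a n (((a n)⁻¹ * y n) x) = y n x := by
      rw [← Equiv.Perm.mul_apply, mul_inv_cancel_left]
    rw [h1, Equiv.symm_apply_apply] at h0
    exact h0.symm
  have haev : ∀ x, ∀ᶠ n in atTop, a n x = x := by
    intro x
    filter_upwards [eventually_ge_atTop (N (idx x + 3))] with n hn
    refine ha2 n (idx x) ?_ x rfl
    ext z
    simp only [Set.mem_ofPred_eq]
    by_cases hz : idx z ≤ idx x + 1
    · have h1 : z < n := by
        have h2 := (hidx z _).1 hz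
        exact lt_of_lt_of_le h2 ((hN.monotone (by omega)).trans hn)
      have h3 : (y n).symm z = z := by rw [Equiv.symm_apply_eq, hy n z h1]
      simp only [β, h3]
      omega
    · have h1 := hnear2 n z
      have h2 := hnear3 n z
      simp only [β]
      omega
  have hbev : ∀ x, ∀ᶠ n in atTop, ((a n)⁻¹ * y n) x = x := by
    intro x
    filter_upwards [haev x, eventually_gt_atTop x] with n h1 h2
    rw [Equiv.Perm.mul_apply, hy n x h2, Equiv.Perm.inv_eq_iff_eq, h1]
  have hidxN : ∀ i, idx (N i) = i := by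
    intro i
    apply le_antisymm
    · rw [hidx]
      exact hN (Nat.lt_succ_self i)
    · by_contra h
      have h1 : idx (N i) ≤ i - 1 := by omega
      have hi : i ≠ 0 := by
        rintro rfl
        omega
      rw [hidx] at h1
      have h2 : i - 1 + 1 = i := by omega
      rw [h2] at h1
      exact lt_irrefl _ h1
  have hinf : ∀ (P : ℕ → Prop) (f : ℕ → ℕ), StrictMono f → (∀ k, P (N (f k))) → {x | P x}.Infinite := by
    intro P f hf hP
    exact Set.infinite_of_injective_forall_mem (f := fun k => N (f k)) (hN.comp hf).injective hP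
  have hA : Tendsto a atTop (𝓝 1) := by
    refine tendsto_block t ht hs (e := fun x => idx x / 2) ?_ hae haev ?_ ?_
    · intro j
      refine (hfin (2*j+1)).subset ?_
      intro x hx
      simp only [Set.mem_ofPred_eq] at hx ⊢
      omega
    · refine hinf (fun x => idx x / 2 % 2 = 0) (fun k => 4 * k) (fun a b hab => by simp only; omega) ?_
      intro k
      rw [hidxN]; omega
    · refine hinf (fun x => ¬ idx x / 2 % 2 = 0) (fun k => 4 * k + 2) (fun a b hab => by simp only; omega) ?_
      intro k
      rw [hidxN]; omega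
  have hB : Tendsto (fun n => (a n)⁻¹ * y n) atTop (𝓝 1) := by
    refine tendsto_block t ht hs (e := fun x => (idx x + 1) / 2) ?_ hbc hbev ?_ ?_
    · intro j
      refine (hfin (2*j)).subset ?_
      intro x hx
      simp only [Set.mem_ofPred_eq] at hx ⊢
      omega
    · refine hinf (fun x => (idx x + 1) / 2 % 2 = 0) (fun k => 4 * k) (fun a b hab => by simp only; omega) ?_
      intro k
      rw [hidxN]; omega
    · refine hinf (fun x => ¬ (idx x + 1) / 2 % 2 = 0) (fun k => 4 * k + 1) (fun a b hab => by simp only; omega) ?_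
      intro k
      rw [hidxN]; omega
  have := hA.mul hB
  rw [one_mul] at this
  refine this.congr fun n => ?_
  simp

end Pool.Agent.Lib_MP_412c32_gt
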