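import Mathlib

/-! The bounding number. -/

namespace Pool.Agent.Lib_MP_412c32_gt

open Filter Cardinal

/-- The bounding number `𝔟`: the least cardinality of a family `F` of functions `ℕ → ℕ` that is
unbounded modulo finite sets (for every `g` there is `f ∈ F` such that `f n ≤ g n` fails for
infinitely many `n`). -/
noncomputable def bounding : Cardinal :=
  sInf {κ | ∃ F : Set (ℕ → ℕ), #F = κ ∧ ∀ g : ℕ → ℕ, ∃ f ∈ F, ¬ ∀ᶠ n in atTop, f n ≤ g n}

end Pool.Agent.Lib_MP_412c32_gt
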