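import Mathlib

/-! The cardinal `r_s` of a group topology. -/

namespace Pool.Agent.Lib_MP_412c32_gt

open Filter Topology Cardinal

/-- `t` is a Hausdorff group topology on `G` in which every sequence `u ∈ S` converges to the
identity. -/
def Admits {G : Type*} [Group G] (S : Set (ℕ → G)) (t : TopologicalSpace G) : Prop :=
  @IsTopologicalGroup G t _ ∧ @T2Space G t ∧ ∀ u ∈ S, Tendsto u atTop (@nhds G t 1)

/-- `S` is a `T_s`-set and `τ = τ_S`: `τ` is a Hausdorff group topology in which every `u ∈ S`
converges to the identity, and it is the finest one (it contains every open set of every other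
such topology). -/
def Generates {G : Type*} [Group G] (S : Set (ℕ → G)) (τ : TopologicalSpace G) : Prop :=
  Admits S τ ∧ ∀ t : TopologicalSpace G, Admits S t → ∀ A : Set G, IsOpen[t] A → IsOpen[τ] A

/-- `r_s(G, τ)`: the least cardinality of a set `S` of sequences with `τ = τ_S`. -/
noncomputable def rs {G : Type*} [Group G] (τ : TopologicalSpace G) : Cardinal :=
  sInf {κ | ∃ S : Set (ℕ → G), #S = κ ∧ Generates S τ}

end Pool.Agent.Lib_MP_412c32_gt
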