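import Mathlib
import Pool.Agent.Lib_MP_412c32_gt.Defs

/-! The finest group topology in which a given sequence converges to the identity. -/

namespace Pool.Agent.Lib_MP_412c32_gt

open Filter Topology Cardinal Pointwise

section FB
variable {G : Type*} [Group G] (w : ℕ → G)

/-- Conjugates of `w j` and of its inverse, `j` large depending on the conjugating element. -/
def Bs (n : ℕ → G → ℕ) (i : ℕ) : Set G :=
  {x | x = 1 ∨ ∃ h : G, ∃ j ≥ n i h, x = h * w j * h⁻¹ ∨ x = h * (w j)⁻¹ * h⁻¹}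

/-- Products of elements of the `Bs w n i`, each `i` being used at most once. -/
def Us (n : ℕ → G → ℕ) : Set G :=
  {x | ∃ l : List (ℕ × G), (l.map Prod.fst).Nodup ∧ (∀ p ∈ l, p.2 ∈ Bs w n p.1) ∧
    (l.map Prod.snd).prod = x}

variable {w}

theorem Bs_mono {n m : ℕ → G → ℕ} {i j : ℕ} (h : ∀ g, m j g ≤ n i g) : Bs w n i ⊆ Bs w m j := by
  rintro x (rfl | ⟨g, k, hk, hx⟩)
  · exact Or.inl rfl
  · exact Or.inr ⟨g, k, (h g).trans hk, hx⟩

theorem Us_mono {n m : ℕ → G → ℕ} (h : ∀ i g, m i g ≤ n i g) : Us w n ⊆ Us w m := by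
  rintro x ⟨l, h1, h2, h3⟩
  exact ⟨l, h1, fun p hp => Bs_mono (fun g => h _ g) (h2 p hp), h3⟩

theorem Bs_inv {n : ℕ → G → ℕ} {i : ℕ} {x : G} (hx : x ∈ Bs w n i) : x⁻¹ ∈ Bs w n i := by
  rcases hx with rfl | ⟨h, k, hk, rfl | rfl⟩
  · exact Or.inl (by simp)
  · exact Or.inr ⟨h, k, hk, Or.inr (by group)⟩
  · exact Or.inr ⟨h, k, hk, Or.inl (by group)⟩

theorem Us_inv {n : ℕ → G → ℕ} {x : G} (hx : x ∈ Us w n) : x⁻¹ ∈ Us w n := by
  obtain ⟨l, h1, h2, rfl⟩ := hx
  refine ⟨(l.map (fun p => (p.1, p.2⁻¹))).reverse, ?_, ?_, ?_⟩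
  · rw [List.map_reverse, List.nodup_reverse, List.map_map]
    exact h1
  · intro p hp
    rw [List.mem_reverse, List.mem_map] at hp
    obtain ⟨q, hq, rfl⟩ := hp
    exact Bs_inv (h2 q hq)
  · rw [List.prod_inv_reverse, List.map_reverse, List.map_map, List.map_map]
    rfl

theorem Us_conj {n : ℕ → G → ℕ} (g : G) {x : G} (hx : x ∈ Us w (fun i h => n i (g * h))) :
    g * x * g⁻¹ ∈ Us w n := by
  obtain ⟨l, h1, h2, rfl⟩ := hx
  refine ⟨l.map (fun p => (p.1, g * p.2 * g⁻¹)), ?_, ?_, ?_⟩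
  · rw [List.map_map]
    exact h1
  · intro p hp
    rw [List.mem_map] at hp
    obtain ⟨q, hq, rfl⟩ := hp
    rcases h2 q hq with h0 | ⟨h, k, hk, h0⟩
    · left
      simp [h0]
    · right
      refine ⟨g * h, k, hk, ?_⟩
      rcases h0 with h0 | h0
      · left
        simp only [h0]; group
      · right
        simp only [h0]; group
  · rw [List.map_map]
    have : ∀ l : List (ℕ × G), (l.map (Prod.snd ∘ fun p => (p.1, g * p.2 * g⁻¹))).prod =
        g * (l.map Prod.snd).prod * g⁻¹ := by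
      intro l
      induction l with
      | nil => simp
      | cons a l ih =>
        rw [List.map_cons, List.prod_cons, ih, List.map_cons, List.prod_cons]
        simp only [Function.comp]
        group
    exact this l

theorem Us_mul {n : ℕ → G → ℕ} {x y : G} (hx : x ∈ Us w (fun i h => max (n (2*i) h) (n (2*i+1) h)))
    (hy : y ∈ Us w (fun i h => max (n (2*i) h) (n (2*i+1) h))) : x * y ∈ Us w n := by
  obtain ⟨l, h1, h2, rfl⟩ := hx
  obtain ⟨l', h1', h2', rfl⟩ := hy
  refine ⟨l.map (fun p => (2 * p.1, p.2)) ++ l'.map (fun p => (2 * p.1 + 1, p.2)), ?_, ?_, ?_⟩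
  · rw [List.map_append, List.map_map, List.map_map, List.nodup_append]
    refine ⟨?_, ?_, ?_⟩
    · have := h1.map (f := fun i : ℕ => 2 * i) (fun a b hab => by simpa using hab)
      rw [List.map_map] at this
      exact this
    · have := h1'.map (f := fun i : ℕ => 2 * i + 1) (fun a b hab => by simpa using hab)
      rw [List.map_map] at this
      exact this
    · intro a ha b hb
      rw [List.mem_map] at ha hb
      obtain ⟨p, _, rfl⟩ := ha
      obtain ⟨q, _, rfl⟩ := hb
      simp only [Function.comp]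
      omega
  · intro p hp
    rw [List.mem_append, List.mem_map, List.mem_map] at hp
    rcases hp with ⟨q, hq, rfl⟩ | ⟨q, hq, rfl⟩
    · exact Bs_mono (fun g => le_max_left _ _) (h2 q hq)
    · exact Bs_mono (fun g => le_max_right _ _) (h2' q hq)
  · rw [List.map_append, List.prod_append, List.map_map, List.map_map]
    rfl

theorem one_mem_Us (n : ℕ → G → ℕ) : (1 : G) ∈ Us w n :=
  ⟨[], by simp, by simp, by simp⟩

variable (w)

/-- the group filter basis of the sets `Us w n` -/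
@[instance_reducible]
def fb : GroupFilterBasis G where
  sets := Set.range (Us w)
  nonempty := ⟨_, ⟨fun _ _ => 0, rfl⟩⟩
  inter_sets := by
    rintro _ _ ⟨n, rfl⟩ ⟨m, rfl⟩
    refine ⟨_, ⟨fun i h => max (n i h) (m i h), rfl⟩, ?_⟩
    exact Set.subset_inter (Us_mono fun i g => le_max_left _ _) (Us_mono fun i g => le_max_right _ _)
  one' := by
    rintro _ ⟨n, rfl⟩
    exact one_mem_Us n
  mul' := by
    rintro _ ⟨n, rfl⟩
    refine ⟨_, ⟨fun i h => max (n (2*i) h) (n (2*i+1) h), rfl⟩, ?_⟩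
    rintro _ ⟨x, hx, y, hy, rfl⟩
    exact Us_mul hx hy
  inv' := by
    rintro _ ⟨n, rfl⟩
    exact ⟨_, ⟨n, rfl⟩, fun x hx => Us_inv hx⟩
  conj' := by
    rintro g _ ⟨n, rfl⟩
    exact ⟨_, ⟨_, rfl⟩, fun x hx => Us_conj g hx⟩

theorem tendsto_fb : Tendsto w atTop (@nhds G (fb w).topology 1) := by
  rw [(fb w).nhds_one_hasBasis.tendsto_right_iff]
  rintro _ ⟨n, rfl⟩
  filter_upwards [eventually_ge_atTop (n 0 1)] with j hj
  refine ⟨[(0, w j)], by simp, ?_, by simp⟩
  intro p hp
  rw [List.mem_singleton] at hp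
  subst hp
  exact Or.inr ⟨1, j, hj, Or.inl (by simp)⟩

/-- If some `Us w n` contains no neighbourhood of the identity for the Hausdorff group topology
`τ`, in which `w` converges to the identity, then `τ` is not generated by `w`. -/
theorem not_generates_of {τ : TopologicalSpace G} (hτ : @IsTopologicalGroup G τ _)
    (h2 : @T2Space G τ) (hw : Tendsto w atTop (@nhds G τ 1))
    {n : ℕ → G → ℕ} (hn : Us w n ∉ @nhds G τ 1) : ¬ Generates {w} τ := by
  intro hgen
  have hadm : Admits {w} ((fb w).topology ⊓ τ) := by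
    refine ⟨?_, ?_, ?_⟩
    · exact topologicalGroup_inf (fb w).isTopologicalGroup hτ
    · exact t2Space_antitone inf_le_right h2
    · intro u hu
      rw [Set.mem_singleton_iff] at hu
      subst hu
      rw [@nhds_inf G (fb u).topology τ 1]
      exact tendsto_inf.2 ⟨tendsto_fb u, hw⟩
  have h3 := hgen.2 _ hadm
  apply hn
  have h4 : Us w n ∈ @nhds G ((fb w).topology ⊓ τ) 1 := by
    rw [@nhds_inf G (fb w).topology τ 1]
    exact mem_inf_of_left ((fb w).mem_nhds_one ⟨n, rfl⟩)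
  obtain ⟨A, hA1, hA2, hA3⟩ := (@_root_.mem_nhds_iff G ((fb w).topology ⊓ τ) _ _).1 h4
  exact (@_root_.mem_nhds_iff G τ _ _).2 ⟨A, hA1, h3 A hA2, hA3⟩

end FB

end Pool.Agent.Lib_MP_412c32_gt
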