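import Mathlib
import Pool.Agent.Lib_MP_412c32_gt.FilterB

/-! A non-discrete metrizable topology on a countable group is not generated by one sequence. -/

namespace Pool.Agent.Lib_MP_412c32_gt

open Filter Topology Cardinal Pointwise

theorem exists_rec {α : Type*} (a0 : α) (P : ℕ → (ℕ → α) → α → Prop)
    (H : ∀ i b, ∃ m, P i b m) : ∃ a : ℕ → α, ∀ i, P i (fun j => if j < i then a j else a0) (a i) := by
  classical
  choose F hF using H
  let B : ℕ → (ℕ → α) := fun i => Nat.rec (fun _ => a0) (fun i b => Function.update b i (F i b)) i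
  have hB0 : B 0 = fun _ => a0 := rfl
  have hBs : ∀ i, B (i+1) = Function.update (B i) i (F i (B i)) := fun i => rfl
  let a : ℕ → α := fun i => F i (B i)
  have key : ∀ i, B i = fun j => if j < i then a j else a0 := by
    intro i
    induction i with
    | zero => rw [hB0]; ext j; simp
    | succ i ih =>
      rw [hBs]
      funext j
      by_cases hj : j = i
      · subst hj
        simp [a]
      · rw [Function.update_of_ne hj, ih]
        by_cases hji : j < i
        · simp [hji, Nat.lt_succ_of_lt hji]
        · have : ¬ j < i + 1 := by omega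
          simp [hji, this]
  refine ⟨a, fun i => ?_⟩
  rw [← key]
  exact hF i (B i)

section
variable {G : Type*} [Group G]

/-- `W K₁ W K₂ … W K_r W` -/
def Th (W : Set G) : List (Set G) → Set G
  | [] => W
  | K :: L => W * K * Th W L

theorem Th_mono {W W' : Set G} (h : W ⊆ W') : ∀ L : List (Set G), Th W L ⊆ Th W' L
  | [] => h
  | _ :: L => Set.mul_subset_mul (Set.mul_subset_mul_right h) (Th_mono h L)

theorem one_mem_Th {W : Set G} (hW : (1 : G) ∈ W) : ∀ {L : List (Set G)}, (∀ K ∈ L, (1 : G) ∈ K) →
    (1 : G) ∈ Th W L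
  | [], _ => hW
  | K :: L, h => by
    have h1 : (1 : G) ∈ W * K := ⟨1, hW, 1, h K (by simp), one_mul 1⟩
    exact ⟨1, h1, 1, one_mem_Th hW fun K' hK' => h K' (by simp [hK']), one_mul 1⟩

theorem Th_le_replicate {W C : Set G} (hW : (1 : G) ∈ W) (hC : (1 : G) ∈ C) :
    ∀ (L : List (Set G)) (r : ℕ), L.length ≤ r → (∀ K ∈ L, K ⊆ C) →
      Th W L ⊆ Th W (List.replicate r C)
  | [], r, _, _ => by
    cases r with
    | zero => exact subset_rfl
    | succ r =>
      intro x hx
      have h1 : x ∈ W * C := ⟨x, hx, 1, hC, mul_one x⟩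
      refine ⟨x, h1, 1, one_mem_Th hW ?_, mul_one x⟩
      intro K hK
      rw [List.eq_of_mem_replicate hK]
      exact hC
  | K :: L, r, hr, hL => by
    cases r with
    | zero => simp at hr
    | succ r =>
      rw [List.replicate_succ]
      refine Set.mul_subset_mul (Set.mul_subset_mul_left (hL K (by simp))) ?_
      exact Th_le_replicate hW hC L r (by simpa using hr) fun K' hK' => hL K' (by simp [hK'])

end

section
variable {G : Type*} [Group G] [TopologicalSpace G] [IsTopologicalGroup G] [T2Space G]

theorem compact_of_null {K : Set G} (h1 : (1 : G) ∈ K) (h : ∀ U ∈ 𝓝 (1 : G), (K \ U).Finite) :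
    IsCompact K := by
  rw [isCompact_iff_ultrafilter_le_nhds]
  intro F hF
  by_cases hF1 : (F : Filter G) ≤ 𝓝 1
  · exact ⟨1, h1, hF1⟩
  · rw [Filter.not_le] at hF1
    obtain ⟨U, hU, hUF⟩ := hF1
    have h2 : K \ U ∈ F := by
      have h3 : Uᶜ ∈ F := Ultrafilter.compl_mem_iff_notMem.2 hUF
      exact Filter.inter_mem (Filter.le_principal_iff.1 hF) h3
    obtain ⟨x, hx, hxF⟩ := Ultrafilter.eq_pure_of_finite_mem (h U hU) h2
    refine ⟨x, hx.1, ?_⟩
    rw [hxF]
    exact pure_le_nhds x

theorem mem_prod_of_Th {V : ℕ → Set G} (hV : (𝓝 (1 : G)).HasAntitoneBasis V)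
    (F : Ultrafilter ℕ) (hF : (F : Filter ℕ) ≤ atTop) :
    ∀ (L : List (Set G)), (∀ K ∈ L, IsCompact K) → ∀ (x : ℕ → G) (y : G),
      (∀ m, x m ∈ Th (V m) L) → Tendsto x F (𝓝 y) → y ∈ L.prod
  | [], _, x, y, hx, hy => by
    have h1 : Tendsto x atTop (𝓝 1) := hV.tendsto hx
    have h2 := tendsto_nhds_unique hy (h1.mono_left hF)
    rw [List.prod_nil]
    exact h2
  | K :: L, hL, x, y, hx, hy => by
    have h0 : ∀ m, ∃ v k z, v ∈ V m ∧ k ∈ K ∧ z ∈ Th (V m) L ∧ x m = v * k * z := by
      intro m
      obtain ⟨_, ⟨v, hv, k, hk, rfl⟩, z, hz, h⟩ := hx m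
      exact ⟨v, k, z, hv, hk, hz, h.symm⟩
    choose v k z hv hk hz hxe using h0
    have hv1 : Tendsto v F (𝓝 1) := (hV.tendsto hv).mono_left hF
    obtain ⟨k0, hk0, hk1⟩ : ∃ k0 ∈ K, Tendsto k F (𝓝 k0) := by
      have hmap : ((F.map k : Ultrafilter G) : Filter G) ≤ 𝓟 K := by
        rw [Filter.le_principal_iff]
        show ∀ᶠ m in (F : Filter ℕ), k m ∈ K
        exact Filter.Eventually.of_forall hk
      exact (hL K (by simp)).ultrafilter_le_nhds (F.map k) hmap
    have hz1 : Tendsto z F (𝓝 (k0⁻¹ * 1⁻¹ * y)) := by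
      have h3 : z = fun m => (k m)⁻¹ * (v m)⁻¹ * x m := by
        funext m
        rw [hxe]
        group
      rw [h3]
      exact (hk1.inv.mul hv1.inv).mul hy
    have h4 := mem_prod_of_Th hV F hF L (fun K' hK' => hL K' (by simp [hK'])) z _ hz hz1
    rw [List.prod_cons]
    exact ⟨k0, hk0, _, h4, by simp⟩

theorem isCompact_prod : ∀ (L : List (Set G)), (∀ K ∈ L, IsCompact K) → IsCompact L.prod
  | [], _ => by
    rw [List.prod_nil]
    exact isCompact_singleton
  | K :: L, hL => by
    rw [List.prod_cons]
    exact (hL K (by simp)).mul (isCompact_prod L fun K' hK' => hL K' (by simp [hK']))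

theorem not_nhds_of_compact [Countable G] (hd : ¬ DiscreteTopology G) {K : Set G} (hK : IsCompact K) :
    K ∉ 𝓝 (1 : G) := by
  intro h
  have hlc : LocallyCompactSpace G := hK.locallyCompactSpace_of_mem_nhds_of_group h
  have hb : BaireSpace G := inferInstance
  apply hd
  have hU : (⋃ x : G, ({x} : Set G)) = Set.univ := by
    ext x; simp
  obtain ⟨x, y, hy⟩ := nonempty_interior_of_iUnion_of_closed (fun x : G => isClosed_singleton) hU
  have hyx : y = x := by simpa using interior_subset hy
  subst hyx
  have h1 : IsOpen ({y} : Set G) := by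
    have : interior ({y} : Set G) = {y} :=
      Set.Subset.antisymm interior_subset (Set.singleton_subset_iff.2 hy)
    rw [← this]
    exact isOpen_interior
  refine discreteTopology_of_isOpen_singleton_one ?_
  have h2 : ({1} : Set G) = (fun z => y * z) ⁻¹' {y} := by
    ext z; simp
  rw [h2]
  exact h1.preimage (continuous_const.mul continuous_id)

/-- products of elements of distinct levels `≥ i` are small -/
theorem prod_small {V : ℕ → Set G} (hanti : Antitone V) (h1 : ∀ m, (1 : G) ∈ V m)
    (h3 : ∀ m, V (m+1) * V (m+1) * V (m+1) ⊆ V m) {b : ℕ → ℕ} (hb : StrictMono b) :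
    ∀ (r : ℕ) (l : List (ℕ × G)), l.length ≤ r → (l.map Prod.fst).Nodup →
      (∀ p ∈ l, p.2 ∈ V (b p.1 + 1)) → ∀ i, (∀ p ∈ l, i ≤ p.1) → (l.map Prod.snd).prod ∈ V (b i) := by
  classical
  intro r
  induction r with
  | zero =>
    intro l hl _ _ i _
    have : l = [] := List.length_eq_zero_iff.1 (by omega)
    subst this
    exact h1 _
  | succ r ih =>
    intro l hl hnd hmem i hi
    by_cases hl0 : l = []
    · subst hl0
      exact h1 _
    · obtain ⟨q, hq, hmin⟩ := Finset.exists_min_image l.toFinset Prod.fst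
        ((List.toFinset_nonempty_iff l).2 hl0)
      rw [List.mem_toFinset] at hq
      obtain ⟨l1, l2, rfl⟩ := List.append_of_mem hq
      rw [List.map_append, List.map_cons, List.nodup_append, List.nodup_cons] at hnd
      obtain ⟨hn1, ⟨hn2, hn3⟩, hn4⟩ := hnd
      have hlow1 : ∀ p ∈ l1, q.1 + 1 ≤ p.1 := by
        intro p hp
        have e1 := hmin p (by simp [hp])
        have e2 := hn4 p.1 (List.mem_map_of_mem hp) q.1 (by simp)
        omega
      have hlow2 : ∀ p ∈ l2, q.1 + 1 ≤ p.1 := by
        intro p hp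
        have e1 := hmin p (by simp [hp])
        have e2 : q.1 ≠ p.1 := fun h => hn2 (h ▸ List.mem_map_of_mem hp)
        omega
      have hlen : l1.length + (l2.length + 1) ≤ r + 1 := by
        rw [List.length_append, List.length_cons] at hl
        exact hl
      have p1 := ih l1 (by omega) hn1 (fun p hp => hmem p (by simp [hp])) (q.1 + 1) hlow1
      have p2 := ih l2 (by omega) hn3 (fun p hp => hmem p (by simp [hp])) (q.1 + 1) hlow2
      have hbq : b q.1 + 1 ≤ b (q.1 + 1) := hb (Nat.lt_succ_self _)
      have p0 := hmem q (by simp)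
      rw [List.map_append, List.map_cons, List.prod_append, List.prod_cons, ← mul_assoc]
      have hi' : b i ≤ b q.1 := hb.monotone (hi q (by simp))
      apply hanti hi'
      apply h3
      exact ⟨_, ⟨_, hanti hbq p1, _, p0, rfl⟩, _, hanti hbq p2, rfl⟩

theorem prod_mem_Th {V : ℕ → Set G} (hanti : Antitone V) (h1 : ∀ m, (1 : G) ∈ V m)
    (h3 : ∀ m, V (m+1) * V (m+1) * V (m+1) ⊆ V m) {b : ℕ → ℕ} (hb : StrictMono b)
    {K : ℕ → Set G} (hK : ∀ m, K m ⊆ V m) (i : ℕ) :
    ∀ (r : ℕ) (l : List (ℕ × G)), l.length ≤ r → (l.map Prod.fst).Nodup →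
      (∀ p ∈ l, p.2 ∈ K (b p.1 + 1)) →
      (l.map Prod.snd).prod ∈ Th (V (b i))
        ((l.filter (fun p => p.1 < i)).map (fun p => K (b p.1 + 1))) := by
  intro r
  induction r with
  | zero =>
    intro l hl _ _
    have : l = [] := List.length_eq_zero_iff.1 (by omega)
    subst this
    exact h1 _
  | succ r ih =>
    intro l hl hnd hmem
    have hsplit := List.takeWhile_append_dropWhile (p := fun p : ℕ × G => decide (i ≤ p.1)) (l := l)
    set blk := l.takeWhile (fun p : ℕ × G => decide (i ≤ p.1)) with hblk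
    have hblki : ∀ p ∈ blk, i ≤ p.1 := by
      intro p hp
      have := List.mem_takeWhile_imp hp
      simpa using this
    have hfb : blk.filter (fun p : ℕ × G => decide (p.1 < i)) = [] := by
      rw [List.filter_eq_nil_iff]
      intro p hp
      have := hblki p hp
      simp only [decide_eq_true_eq]
      omega
    rcases hrest : l.dropWhile (fun p : ℕ × G => decide (i ≤ p.1)) with _ | ⟨q, l'⟩
    · rw [hrest, List.append_nil] at hsplit
      rw [← hsplit, hfb]
      rw [← hsplit] at hnd hmem hl
      exact prod_small hanti h1 h3 hb (r+1) blk hl hnd (fun p hp => hK _ (hmem p hp)) i hblki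
    · have hq : q.1 < i := by
        have := List.head_dropWhile_not (fun p : ℕ × G => decide (i ≤ p.1)) (l := l) (by rw [hrest]; simp)
        simp only [hrest, List.head_cons] at this
        simpa using this
      rw [hrest] at hsplit
      rw [← hsplit] at hnd hmem hl ⊢
      rw [List.map_append, List.map_cons, List.nodup_append, List.nodup_cons] at hnd
      rw [List.filter_append, hfb, List.nil_append, List.filter_cons_of_pos (by simpa using hq),
        List.map_cons, List.map_append, List.map_cons, List.prod_append, List.prod_cons,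
        ← mul_assoc]
      have hlen : blk.length + (l'.length + 1) ≤ r + 1 := by
        rw [List.length_append, List.length_cons] at hl
        exact hl
      refine ⟨_, ⟨_, ?_, _, hmem q (by simp), rfl⟩, _, ?_, rfl⟩
      · exact prod_small hanti h1 h3 hb (r+1) blk (by omega) hnd.1
          (fun p hp => hK _ (hmem p (by simp [hp]))) i hblki
      · exact ih l' (by omega) hnd.2.1.2 (fun p hp => hmem p (by simp [hp]))

/-- A non-discrete metrizable (first countable Hausdorff) group topology on a countable group is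
not generated by a single sequence. -/
theorem not_generates_single [Countable G] [FirstCountableTopology G] (hd : ¬ DiscreteTopology G)
    {w : ℕ → G} (hw : Tendsto w atTop (𝓝 1)) :
    ¬ Generates {w} (inferInstance : TopologicalSpace G) := by
  classical
  obtain ⟨V0, hV0, hV0m⟩ := IsTopologicalGroup.exists_antitone_basis_nhds_one G
  -- pass to every second set
  set V : ℕ → Set G := fun m => V0 (2 * m) with hVdef
  have hV : (𝓝 (1 : G)).HasAntitoneBasis V :=
    hV0.comp_strictMono (fun a b hab => by
      show 2 * a < 2 * b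
      omega)
  have h1' : ∀ m, (1 : G) ∈ V0 m := fun m => mem_of_mem_nhds (hV0.toHasBasis.mem_of_mem trivial)
  have h1 : ∀ m, (1 : G) ∈ V m := fun m => h1' _
  have hanti : Antitone V := hV.antitone
  have h3 : ∀ m, V (m+1) * V (m+1) * V (m+1) ⊆ V m := by
    intro m
    have e1 : V0 (2 * (m + 1)) * V0 (2 * (m+1)) ⊆ V0 (2 * m + 1) := hV0m (2 * m + 1)
    have e2 : V0 (2 * (m+1)) ⊆ V0 (2 * m + 1) := hV0.antitone (by omega)
    exact (Set.mul_subset_mul e1 e2).trans (hV0m (2 * m))
  -- indices of conjugating elements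
  obtain ⟨e, he⟩ := exists_injective_nat G
  have hconj : ∀ (g : G) (m : ℕ), ∃ J, ∀ j ≥ J, g * w j * g⁻¹ ∈ V m ∧ g * (w j)⁻¹ * g⁻¹ ∈ V m := by
    intro g m
    have t1 : Tendsto (fun j => g * w j * g⁻¹) atTop (𝓝 (g * 1 * g⁻¹)) :=
      (hw.const_mul g).mul_const g⁻¹
    have t2 : Tendsto (fun j => g * (w j)⁻¹ * g⁻¹) atTop (𝓝 (g * 1⁻¹ * g⁻¹)) :=
      (hw.inv.const_mul g).mul_const g⁻¹
    have hg1 : g * 1 * g⁻¹ = 1 := by simp
    have hg2 : g * 1⁻¹ * g⁻¹ = 1 := by simp
    rw [hg1] at t1
    rw [hg2] at t2
    have hVm : V m ∈ 𝓝 (1 : G) := hV.toHasBasis.mem_of_mem trivial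
    obtain ⟨J, hJ⟩ := eventually_atTop.1 ((t1.eventually hVm).and (t2.eventually hVm))
    exact ⟨J, hJ⟩
  choose N0 hN0 using hconj
  -- tails
  let N : ℕ → G → ℕ := fun a g => N0 g (a + e g)
  let K : ℕ → Set G := fun m => Bs w (fun _ => N m) 0
  have hKV : ∀ m, K m ⊆ V m := by
    rintro m x (rfl | ⟨g, j, hj, hx⟩)
    · exact h1 m
    · have := hN0 g (m + e g) j hj
      refine hanti (Nat.le_add_right m (e g)) ?_
      rcases hx with rfl | rfl
      · exact this.1
      · exact this.2
  have hK1 : ∀ m, (1 : G) ∈ K m := fun m => Or.inl rfl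
  have hKc : ∀ m, IsCompact (K m) := by
    intro m
    refine compact_of_null (hK1 m) ?_
    intro U hU
    obtain ⟨r, hr⟩ := (hV.toHasBasis.mem_iff).1 hU
    have hr : V r ⊆ U := by simpa using hr
    have hH : {g : G | e g < r}.Finite := by
      refine Set.Finite.of_finite_image ((Set.finite_lt_nat r).subset ?_) he.injOn
      rintro _ ⟨g, hg, rfl⟩
      exact hg
    have hfin : (⋃ g ∈ {g : G | e g < r}, ((fun j => g * w j * g⁻¹) '' {j | j < N0 g r} ∪
        (fun j => g * (w j)⁻¹ * g⁻¹) '' {j | j < N0 g r})).Finite := by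
      refine hH.biUnion fun g _ => ?_
      exact ((Set.finite_lt_nat _).image _).union ((Set.finite_lt_nat _).image _)
    refine hfin.subset ?_
    rintro x ⟨hx, hxU⟩
    rcases hx with rfl | ⟨g, j, hj, hx⟩
    · exact absurd (mem_of_mem_nhds hU) hxU
    · have hgr : e g < r := by
        by_contra hge
        apply hxU
        apply hr
        have := hN0 g (m + e g) j hj
        refine hanti (show r ≤ m + e g by omega) ?_
        rcases hx with rfl | rfl
        · exact this.1
        · exact this.2
      have hj' : j < N0 g r := by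
        by_contra hge
        apply hxU
        apply hr
        have := hN0 g r j (not_lt.1 hge)
        rcases hx with rfl | rfl
        · exact this.1
        · exact this.2
      simp only [Set.mem_iUnion]
      refine ⟨g, hgr, ?_⟩
      rcases hx with rfl | rfl
      · exact Or.inl ⟨j, hj', rfl⟩
      · exact Or.inr ⟨j, hj', rfl⟩
  -- the compact sets of the first levels
  let C : ℕ → (ℕ → ℕ) → Set G := fun i b => {1} ∪ ⋃ j ∈ Set.Iio i, K (b j + 1)
  have hC1 : ∀ i b, (1 : G) ∈ C i b := fun i b => Or.inl rfl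
  have hCc : ∀ i b, IsCompact (C i b) := fun i b =>
    isCompact_singleton.union ((Set.finite_Iio i).isCompact_biUnion fun j _ => hKc _)
  have hrec := exists_rec 0 (fun i b m => (∀ j < i, b j < m) ∧
    ∃ x ∈ V i, x ∉ Th (V m) (List.replicate i (C i b))) (by
      intro i b
      have hLc : ∀ K' ∈ List.replicate i (C i b), IsCompact K' := by
        intro K' hK'
        rw [List.eq_of_mem_replicate hK']
        exact hCc i b
      have hnn := not_nhds_of_compact hd (isCompact_prod _ hLc)
      have hx : ∃ x ∈ V i, x ∉ (List.replicate i (C i b)).prod := by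
        by_contra hcon
        push Not at hcon
        apply hnn
        exact Filter.mem_of_superset (hV.toHasBasis.mem_of_mem trivial) hcon
      obtain ⟨x, hxV, hx⟩ := hx
      have hm0 : ∃ m0, x ∉ Th (V m0) (List.replicate i (C i b)) := by
        by_contra hcon
        push Not at hcon
        exact hx (mem_prod_of_Th hV (hyperfilter ℕ) Nat.hyperfilter_le_atTop _ hLc (fun _ => x) x
          hcon tendsto_const_nhds)
      obtain ⟨m0, hm0⟩ := hm0
      refine ⟨m0 + ∑ j ∈ Finset.range i, (b j + 1), ?_, x, hxV, ?_⟩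
      · intro j hj
        have := Finset.single_le_sum (f := fun j => b j + 1) (fun _ _ => Nat.zero_le _)
          (Finset.mem_range.2 hj)
        omega
      · intro hcon
        exact hm0 (Th_mono (hanti (Nat.le_add_right _ _)) _ hcon))
  obtain ⟨b, hb⟩ := hrec
  have hbm : StrictMono b := by
    refine strictMono_nat_of_lt_succ fun i => ?_
    have := (hb (i+1)).1 i (Nat.lt_succ_self i)
    simpa using this
  have hCeq : ∀ i, C i (fun j => if j < i then b j else 0) = C i b := by
    intro i
    simp only [C]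
    congr 1
    refine Set.iUnion₂_congr fun j hj => ?_
    rw [if_pos (show j < i from hj)]
  -- the neighbourhood
  have hUs : Us w (fun i g => N (b i + 1) g) ∉ 𝓝 (1 : G) := by
    intro hcon
    obtain ⟨i, hi⟩ := (hV.toHasBasis.mem_iff).1 hcon
    have hi : V i ⊆ Us w (fun i g => N (b i + 1) g) := by simpa using hi
    obtain ⟨x, hxV, hx⟩ := (hb i).2
    rw [hCeq] at hx
    obtain ⟨l, hl1, hl2, hl3⟩ := hi hxV
    apply hx
    have hl2' : ∀ p ∈ l, p.2 ∈ K (b p.1 + 1) := hl2
    have := prod_mem_Th hanti h1 h3 hbm hKV i l.length l le_rfl hl1 hl2'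
    rw [hl3] at this
    refine Th_le_replicate (h1 _) (hC1 i b) _ i ?_ ?_ this
    · rw [List.length_map]
      have hnd : ((l.filter (fun p => p.1 < i)).map Prod.fst).Nodup :=
        hl1.sublist (List.filter_sublist.map _)
      have hsub : ((l.filter (fun p => p.1 < i)).map Prod.fst).toFinset ⊆ Finset.range i := by
        intro a ha
        rw [List.mem_toFinset, List.mem_map] at ha
        obtain ⟨p, hp, rfl⟩ := ha
        rw [List.mem_filter] at hp
        simpa using hp.2
      have := Finset.card_le_card hsub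
      rw [List.toFinset_card_of_nodup hnd, List.length_map, Finset.card_range] at this
      exact this
    · intro K' hK'
      rw [List.mem_map] at hK'
      obtain ⟨p, hp, rfl⟩ := hK'
      rw [List.mem_filter] at hp
      refine Set.subset_union_of_subset_right ?_ _
      intro z hz
      simp only [Set.mem_iUnion]
      exact ⟨p.1, by simpa using hp.2, hz⟩
  exact not_generates_of w inferInstance inferInstance hw hUs

end

end Pool.Agent.Lib_MP_412c32_gt
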