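import Mathlib
import Pool.Agent.Lib_MP_412c32_gt.Single
import Pool.Agent.Lib_MP_412c32_gt.Bounding

/-! `r_s = 𝔟` for countable non-discrete metrizable groups. -/

namespace Pool.Agent.Lib_MP_412c32_gt

open Filter Topology Cardinal

/-- a monotone function above `f` -/
def tld (f : ℕ → ℕ) (n : ℕ) : ℕ := ∑ k ∈ Finset.range (n+1), f k

theorem tld_mono (f : ℕ → ℕ) : Monotone (tld f) := by
  intro a b hab
  exact Finset.sum_le_sum_of_subset (Finset.range_mono (by omega))

theorem le_tld (f : ℕ → ℕ) (n : ℕ) : f n ≤ tld f n :=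
  Finset.single_le_sum (f := f) (fun _ _ => Nat.zero_le _) (Finset.mem_range.2 (Nat.lt_succ_self n))

section
variable {G : Type} [Group G]

open Classical in
/-- level of an element -/
noncomputable def lev (V : ℕ → Set G) (g : G) : ℕ :=
  if h : ∃ n, g ∉ V n then Nat.find h else 0

open Classical in
/-- the sequence of all elements `φ i ≠ 1` with `i ≤ f (lev (φ i))` -/
noncomputable def sf (V : ℕ → Set G) (φ : ℕ ≃ G) (f : ℕ → ℕ) (i : ℕ) : G :=
  if φ i ≠ 1 ∧ i ≤ f (lev V (φ i)) then φ i else 1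

theorem mem_iff_lt_lev {V : ℕ → Set G} (hanti : Antitone V) {g : G} (hg : ∃ n, g ∉ V n) (m : ℕ) :
    g ∈ V m ↔ m < lev V g := by
  classical
  have hl : lev V g = Nat.find hg := dif_pos hg
  rw [hl]
  constructor
  · intro h
    by_contra hcon
    exact Nat.find_spec hg (hanti (not_lt.1 hcon) h)
  · intro h
    have := Nat.find_min hg h
    push Not at this
    exact this

end

section
variable {G : Type} [Group G] [TopologicalSpace G] [IsTopologicalGroup G] [T2Space G]

theorem exists_notMem {V : ℕ → Set G} (hV : (𝓝 (1 : G)).HasAntitoneBasis V) {g : G} (hg : g ≠ 1) :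
    ∃ n, g ∉ V n := by
  have h1 : ({g}ᶜ : Set G) ∈ 𝓝 (1 : G) := isClosed_singleton.isOpen_compl.mem_nhds (by simpa using hg.symm)
  obtain ⟨n, hn⟩ := hV.toHasBasis.mem_iff.1 h1
  have hn : V n ⊆ {g}ᶜ := by simpa using hn
  exact ⟨n, fun h => hn h rfl⟩

theorem tendsto_sf {V : ℕ → Set G} (hV : (𝓝 (1 : G)).HasAntitoneBasis V) (φ : ℕ ≃ G) (f : ℕ → ℕ) :
    Tendsto (sf V φ (tld f)) atTop (𝓝 1) := by
  classical
  rw [hV.toHasBasis.tendsto_right_iff]
  intro m _
  filter_upwards [eventually_gt_atTop (tld f m)] with i hi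
  unfold sf
  split_ifs with h
  · rw [mem_iff_lt_lev hV.antitone (exists_notMem hV h.1)]
    by_contra hcon
    have := tld_mono f (not_lt.1 hcon)
    omega
  · exact mem_of_mem_nhds (hV.toHasBasis.mem_of_mem trivial)

end

section
variable {G : Type} [Group G]

/-- if all the sequences `sf V φ (tld f)`, `f ∈ F` converge to the identity for `t` and `F` is
unbounded, then `t` is coarser than the topology with basis `V` -/
theorem exists_level (t : TopologicalSpace G) (ht : IsTopologicalGroup G) {V : ℕ → Set G}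
    (hanti : Antitone V) (hsep : ∀ g : G, g ≠ 1 → ∃ n, g ∉ V n)
    (φ : ℕ ≃ G) {F : Set (ℕ → ℕ)} (hF : ∀ g : ℕ → ℕ, ∃ f ∈ F, ¬ ∀ᶠ n in atTop, f n ≤ g n)
    (hconv : ∀ f ∈ F, Tendsto (sf V φ (tld f)) atTop (𝓝 1)) {A : Set G} (hA : IsOpen A) {x : G}
    (hx : x ∈ A) : ∃ m, ∀ g ∈ V m, x * g ∈ A := by
  classical
  by_contra hcon
  push Not at hcon
  choose y hy1 hy2 using hcon
  have hy0 : ∀ m, y m ≠ 1 := by
    intro m hm
    apply hy2 m
    rw [hm, mul_one]
    exact hx
  set h : ℕ → ℕ := fun m => φ.symm (y m) with hh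
  obtain ⟨f, hfF, hf⟩ := hF h
  have hfreq : ∃ᶠ m in atTop, h m < f m := by
    rw [Filter.not_eventually] at hf
    exact hf.mono fun m hm => not_le.1 hm
  have hinf : Tendsto h atTop atTop := by
    rw [tendsto_atTop]
    intro N
    have : ∀ i ∈ Set.Iio N, ∀ᶠ m in atTop, h m ≠ i := by
      intro i _
      by_cases hi : φ i = 1
      · refine Eventually.of_forall fun m hm => hy0 m ?_
        rw [← hi, ← hm, hh]
        simp
      · obtain ⟨n, hn⟩ := hsep _ hi
        filter_upwards [eventually_ge_atTop n] with m hm hmi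
        apply hn
        have : y m = φ i := by
          rw [← hmi, hh]; simp
        rw [← this]
        exact hanti hm (hy1 m)
    filter_upwards [(Set.Finite.eventually_all (Set.finite_Iio N)).2 this] with m hm
    by_contra hlt
    exact hm (h m) (not_le.1 hlt) rfl
  have h1 : Tendsto (fun i => x * sf V φ (tld f) i) atTop (𝓝 (x * 1)) := (hconv f hfF).const_mul x
  rw [mul_one] at h1
  have h2 := hinf.eventually (h1.eventually (hA.mem_nhds hx))
  obtain ⟨m, hm1, hm2⟩ := (hfreq.and_eventually h2).exists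
  have h3 : sf V φ (tld f) (h m) = y m := by
    have e1 : φ (h m) = y m := by rw [hh]; simp
    have e2 : m < lev V (y m) := (mem_iff_lt_lev hanti (hsep _ (hy0 m)) m).1 (hy1 m)
    have e3 : h m ≤ tld f (lev V (y m)) := hm1.le.trans ((le_tld f m).trans (tld_mono f e2.le))
    unfold sf
    rw [e1, if_pos ⟨hy0 m, e3⟩]
  rw [h3] at hm2
  exact hy2 m hm2

/-- a sequence which is almost contained in `sf V φ (tld g)` -/
theorem tendsto_of_dominated (t : TopologicalSpace G) {V : ℕ → Set G}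
    (hanti : Antitone V) (hsep : ∀ g : G, g ≠ 1 → ∃ n, g ∉ V n)
    (φ : ℕ ≃ G) {g : ℕ → ℕ} (hw : Tendsto (sf V φ (tld g)) atTop (𝓝 1)) {s : ℕ → G}
    (hs : ∀ m, ∀ᶠ j in atTop, s j ∈ V m) {f : ℕ → ℕ} (hf : ∀ j n, s j ∉ V n → φ.symm (s j) ≤ f n)
    (hfg : ∀ᶠ n in atTop, f n ≤ g n) : Tendsto s atTop (𝓝 1) := by
  classical
  intro A hA
  have hA' := hw hA
  rw [mem_map, mem_atTop_sets] at hA'
  obtain ⟨i0, hi0⟩ := hA'
  obtain ⟨n0, hn0⟩ := eventually_atTop.1 hfg
  have h1 : ∀ i ∈ Set.Iio i0, ∀ᶠ j in atTop, s j ≠ φ i ∨ s j = 1 := by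
    intro i _
    by_cases hi : φ i = 1
    · refine Eventually.of_forall fun j => ?_
      by_cases hj : s j = 1
      · exact Or.inr hj
      · exact Or.inl (by rwa [hi])
    · obtain ⟨n, hn⟩ := hsep _ hi
      filter_upwards [hs n] with j hj
      left
      intro hji
      rw [hji] at hj
      exact hn hj
  show ∀ᶠ j in atTop, s j ∈ A
  filter_upwards [hs n0, (Set.Finite.eventually_all (Set.finite_Iio i0)).2 h1] with j hj1 hj2
  by_cases hj0 : s j = 1
  · show s j ∈ A
    rw [hj0]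
    exact mem_of_mem_nhds hA
  · have hsepj := hsep _ hj0
    have e1 : n0 < lev V (s j) := (mem_iff_lt_lev hanti hsepj n0).1 hj1
    have e2 : s j ∉ V (lev V (s j)) := fun hc => lt_irrefl _ ((mem_iff_lt_lev hanti hsepj _).1 hc)
    have e3 := hf j _ e2
    have e4 : φ (φ.symm (s j)) = s j := φ.apply_symm_apply _
    have e5 : i0 ≤ φ.symm (s j) := by
      by_contra hlt
      rcases hj2 _ (not_le.1 hlt) with h | h
      · exact h e4.symm
      · exact hj0 h
    have e6 : sf V φ (tld g) (φ.symm (s j)) = s j := by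
      have e7 : φ.symm (s j) ≤ tld g (lev V (s j)) := e3.trans ((hn0 _ e1.le).trans (le_tld g _))
      unfold sf
      rw [e4, if_pos ⟨hj0, e7⟩]
    have := hi0 _ e5
    rw [Set.mem_preimage, e6] at this
    exact this

end

section
variable {G : Type} [Group G] [τ : TopologicalSpace G] [IsTopologicalGroup G] [T2Space G]
  [FirstCountableTopology G] [Countable G]

omit [T2Space G] [FirstCountableTopology G] [Countable G] in
theorem open_of_level {V : ℕ → Set G} (hV : (𝓝 (1 : G)).HasAntitoneBasis V) {A : Set G}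
    (h : ∀ x ∈ A, ∃ m, ∀ g ∈ V m, x * g ∈ A) : IsOpen A := by
  rw [isOpen_iff_mem_nhds]
  intro x hx
  obtain ⟨m, hm⟩ := h x hx
  have h1 : Tendsto (fun y : G => x⁻¹ * y) (𝓝 x) (𝓝 (x⁻¹ * x)) :=
    (continuous_const.mul continuous_id).tendsto x
  rw [inv_mul_cancel] at h1
  have h2 : V m ∈ 𝓝 (1 : G) := hV.toHasBasis.mem_of_mem trivial
  filter_upwards [h1.eventually h2] with y hy
  have := hm _ hy
  simpa using this

theorem rs_countable (hd : ¬ DiscreteTopology G) : rs τ = bounding := by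
  classical
  obtain ⟨V, hV, -⟩ := IsTopologicalGroup.exists_antitone_basis_nhds_one G
  have hanti := hV.antitone
  have hsep : ∀ g : G, g ≠ 1 → ∃ n, g ∉ V n := fun g hg => exists_notMem hV hg
  have hinf : Infinite G := by
    by_contra hcon
    rw [not_infinite_iff_finite] at hcon
    exact hd inferInstance
  obtain ⟨φ'⟩ : Nonempty (G ≃ ℕ) := nonempty_equiv_of_countable
  set φ : ℕ ≃ G := φ'.symm
  -- upper bound
  have hne : {κ | ∃ F : Set (ℕ → ℕ), #F = κ ∧
      ∀ g : ℕ → ℕ, ∃ f ∈ F, ¬ ∀ᶠ n in atTop, f n ≤ g n}.Nonempty := by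
    refine ⟨_, Set.univ, rfl, fun g => ⟨fun n => g n + 1, trivial, fun h => ?_⟩⟩
    obtain ⟨n, hn⟩ := h.exists
    have : g n + 1 ≤ g n := hn
    omega
  obtain ⟨F, hFc, hF⟩ := csInf_mem hne
  have hopen : ∀ A : Set G, (∀ x ∈ A, ∃ m, ∀ g ∈ V m, x * g ∈ A) → IsOpen A :=
    fun A h => open_of_level hV h
  have hgenF : Generates ((fun f => sf V φ (tld f)) '' F) τ := by
    refine ⟨⟨inferInstance, inferInstance, ?_⟩, ?_⟩
    · rintro _ ⟨f, _, rfl⟩
      exact tendsto_sf hV φ f
    · intro t ht A hA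
      refine hopen A fun x hx => ?_
      exact exists_level t ht.1 hanti hsep φ hF (fun f hf => ht.2.2 _ ⟨f, hf, rfl⟩) hA hx
  have hmem : #((fun f => sf V φ (tld f)) '' F) ∈
      {κ | ∃ S : Set (ℕ → G), #S = κ ∧ Generates S τ} := ⟨_, rfl, hgenF⟩
  apply le_antisymm
  · refine (csInf_le' hmem).trans (Cardinal.mk_image_le.trans ?_)
    exact hFc.le
  · refine le_csInf ⟨_, hmem⟩ ?_
    rintro κ ⟨S, rfl, hS⟩
    by_contra hlt
    rw [not_le] at hlt
    have hbd : ∀ s ∈ S, ∀ n, ∃ M, ∀ j, s j ∉ V n → φ.symm (s j) ≤ M := by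
      intro s hs n
      have h2 : V n ∈ 𝓝 (1 : G) := hV.toHasBasis.mem_of_mem trivial
      obtain ⟨J, hJ⟩ := eventually_atTop.1 ((hS.1.2.2 s hs).eventually h2)
      refine ⟨∑ j ∈ Finset.range J, φ.symm (s j), fun j hj => ?_⟩
      have hjJ : j < J := by
        by_contra hge
        exact hj (hJ j (not_lt.1 hge))
      exact Finset.single_le_sum (f := fun j => φ.symm (s j)) (fun _ _ => Nat.zero_le _)
        (Finset.mem_range.2 hjJ)
    have hf : ∀ s : S, ∃ f : ℕ → ℕ, ∀ j n, s.1 j ∉ V n → φ.symm (s.1 j) ≤ f n := by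
      intro s
      choose M hM using hbd s.1 s.2
      exact ⟨M, fun j n hj => hM n j hj⟩
    choose fs hfs using hf
    have hbounded : ∃ g : ℕ → ℕ, ∀ f ∈ Set.range fs, ∀ᶠ n in atTop, f n ≤ g n := by
      by_contra hcon
      push Not at hcon
      have h1 : bounding ≤ #(Set.range fs) := csInf_le' ⟨_, rfl, fun g => by
        obtain ⟨f, hf1, hf2⟩ := hcon g
        refine ⟨f, hf1, ?_⟩
        intro hev
        exact (Filter.not_frequently.2 (hev.mono fun n hn => not_lt.2 hn)) hf2⟩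
      exact absurd (h1.trans Cardinal.mk_range_le) (not_le.2 hlt)
    obtain ⟨g, hg⟩ := hbounded
    have hwτ := tendsto_sf hV φ g
    apply not_generates_single hd hwτ
    refine ⟨⟨inferInstance, inferInstance, ?_⟩, ?_⟩
    · intro u hu
      rw [Set.mem_singleton_iff] at hu
      subst hu
      exact hwτ
    · intro t ht
      apply hS.2 t
      refine ⟨ht.1, ht.2.1, fun s hs => ?_⟩
      refine tendsto_of_dominated t hanti hsep φ (ht.2.2 _ rfl) (fun m => ?_) (hfs ⟨s, hs⟩)
        (hg _ ⟨⟨s, hs⟩, rfl⟩)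
      exact (hS.1.2.2 s hs).eventually (hV.toHasBasis.mem_of_mem trivial)

end

end Pool.Agent.Lib_MP_412c32_gt
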