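import Mathlib
import Pool.Agent.Lib_MP_412c32_gt.Defs
import Pool.Agent.Lib_MP_412c32_gt.CountB

/-! `r_s = 𝔠` for non-discrete separable metrizable abelian groups of cardinality `𝔠`. -/

namespace Pool.Agent.Lib_MP_412c32_gt

open Filter Topology Cardinal

theorem closure_lt {G : Type} [Group G] {X : Set G} (hX : #X < 𝔠) :
    #(Subgroup.closure X) < 𝔠 := by
  have h1 : (Subgroup.closure X : Subgroup G) = (FreeGroup.lift ((↑) : X → G)).range := by
    rw [FreeGroup.range_lift_eq_closure, Subtype.range_coe]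
  have h2 : #(Subgroup.closure X) ≤ #(FreeGroup X) := by
    rw [h1]
    exact Cardinal.mk_le_of_surjective (MonoidHom.rangeRestrict_surjective _)
  refine h2.trans_lt ?_
  rcases isEmpty_or_nonempty X with he | hne
  · have : #(FreeGroup X) ≤ 1 := by
      rw [Cardinal.le_one_iff_subsingleton]
      infer_instance
    exact this.trans_lt (Cardinal.one_lt_aleph0.trans Cardinal.aleph0_lt_continuum)
  · rw [Cardinal.mk_freeGroup]
    exact max_lt hX Cardinal.aleph0_lt_continuum

theorem exists_mul_mem {G : Type} [Group G] (t : TopologicalSpace G) (ht : IsTopologicalGroup G)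
    {y : ℕ → G} (hy : Tendsto y atTop (𝓝 1)) {A : Set G} (hA : IsOpen A) {x : G} (hx : x ∈ A) :
    ∃ m, x * y m ∈ A := by
  have h1 : Tendsto (fun m => x * y m) atTop (𝓝 (x * 1)) := hy.const_mul x
  rw [mul_one] at h1
  exact (h1.eventually (hA.mem_nhds hx)).exists

/-- If all the terms of the sequences of `S` lie in a subgroup `H` of an abelian group, then `H` is
open for the topology generated by `S`. -/
theorem isOpen_of_mem {G : Type} [CommGroup G] (H : Subgroup G) {S : Set (ℕ → G)}
    {τ : TopologicalSpace G} (hS : Generates S τ) (hsub : ∀ s ∈ S, ∀ j, s j ∈ H) :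
    IsOpen[τ] (H : Set G) := by
  let t0 : TopologicalSpace (G ⧸ H) := ⊥
  have ht0 : @IsTopologicalGroup (G ⧸ H) t0 _ := by
    have : DiscreteTopology (G ⧸ H) := ⟨rfl⟩
    exact { continuous_mul := continuous_of_discreteTopology
            continuous_inv := continuous_of_discreteTopology }
  let t1 : TopologicalSpace G := TopologicalSpace.induced (QuotientGroup.mk' H) t0
  have ht1 : @IsTopologicalGroup G t1 _ := topologicalGroup_induced (QuotientGroup.mk' H)
  have hadm : Admits S (t1 ⊓ τ) := by
    refine ⟨topologicalGroup_inf ht1 hS.1.1, t2Space_antitone inf_le_right hS.1.2.1, ?_⟩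
    intro u hu
    rw [@nhds_inf G t1 τ 1]
    refine tendsto_inf.2 ⟨?_, hS.1.2.2 u hu⟩
    rw [nhds_induced, tendsto_comap_iff]
    refine (tendsto_const_nhds (x := (1 : G ⧸ H))).congr fun j => ?_
    exact ((QuotientGroup.eq_one_iff (u j)).2 (hsub u hu j)).symm
  refine hS.2 _ hadm _ ?_
  have h1 : IsOpen[t1] (H : Set G) := by
    refine ⟨{1}, trivial, ?_⟩
    ext x
    exact QuotientGroup.eq_one_iff x
  exact (inf_le_left : t1 ⊓ τ ≤ t1) _ h1

section
variable {G : Type} [Group G] [τ : TopologicalSpace G] [IsTopologicalGroup G]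
  [T2Space G] [FirstCountableTopology G]

/-- the set of all null sequences generates a metrizable group topology -/
theorem generates_all : Generates {s : ℕ → G | Tendsto s atTop (𝓝 1)} τ := by
  obtain ⟨V, hV, -⟩ := IsTopologicalGroup.exists_antitone_basis_nhds_one G
  have hopen : ∀ A : Set G, (∀ x ∈ A, ∃ m, ∀ g ∈ V m, x * g ∈ A) → IsOpen A :=
    fun A h => open_of_level hV h
  have hVt : ∀ y : ℕ → G, (∀ m, y m ∈ V m) → Tendsto y atTop (𝓝 1) := fun y hy => hV.tendsto hy
  refine ⟨⟨inferInstance, inferInstance, fun u hu => hu⟩, ?_⟩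
  intro t ht A hA
  refine hopen A fun x hx => ?_
  by_contra hcon
  push Not at hcon
  choose y hy1 hy2 using hcon
  have h1 : @Tendsto ℕ G y atTop (@nhds G t 1) := ht.2.2 y (hVt y hy1)
  obtain ⟨m, hm⟩ := exists_mul_mem t ht.1 h1 hA hx
  exact hy2 m hm

end

section
variable {G : Type} [CommGroup G] [τ : TopologicalSpace G] [IsTopologicalGroup G]
  [T2Space G] [FirstCountableTopology G] [TopologicalSpace.SeparableSpace G]

omit [TopologicalSpace.SeparableSpace G] [FirstCountableTopology G] [IsTopologicalGroup G]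
  [T2Space G] in
/-- the subgroup generated by the terms of a generating set of sequences is open -/
theorem isOpen_closure {S : Set (ℕ → G)} (hS : Generates S τ) :
    IsOpen (Subgroup.closure (⋃ s ∈ S, Set.range s) : Set G) := by
  set H : Subgroup G := Subgroup.closure (⋃ s ∈ S, Set.range s) with hH
  have hsub : ∀ s ∈ S, ∀ j, s j ∈ H := by
    intro s hs j
    apply Subgroup.subset_closure
    simp only [Set.mem_iUnion]
    exact ⟨s, hs, j, rfl⟩
  exact isOpen_of_mem H hS hsub

theorem rs_comm (hG : #G = 𝔠) : rs τ = 𝔠 := by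
  have hgen := generates_all (G := G)
  have hmem : #{s : ℕ → G | Tendsto s atTop (𝓝 1)} ∈
      {κ | ∃ S : Set (ℕ → G), #S = κ ∧ Generates S τ} := ⟨_, rfl, hgen⟩
  apply le_antisymm
  · refine (csInf_le' hmem).trans ((Cardinal.mk_set_le _).trans ?_)
    have : #(ℕ → G) = #G ^ ℵ₀ := by simp
    rw [this, hG, Cardinal.continuum_power_aleph0]
  · refine le_csInf ⟨_, hmem⟩ ?_
    rintro κ ⟨S, rfl, hS⟩
    by_contra hlt
    rw [not_le] at hlt
    have hX : #(⋃ s ∈ S, Set.range s : Set G) < 𝔠 := by
      have h1 : #(⋃ s ∈ S, Set.range s : Set G) ≤ #S * ℵ₀ := by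
        rw [Set.biUnion_eq_iUnion]
        refine (Cardinal.mk_iUnion_le_sum_mk).trans ?_
        refine (Cardinal.sum_le_sum _ (fun _ => ℵ₀) fun s => ?_).trans ?_
        · rw [Cardinal.le_aleph0_iff_set_countable]
          exact Set.countable_range _
        · simp
      refine h1.trans_lt ?_
      exact Cardinal.mul_lt_of_lt Cardinal.aleph0_le_continuum hlt Cardinal.aleph0_lt_continuum
    set H : Subgroup G := Subgroup.closure (⋃ s ∈ S, Set.range s) with hH
    have hHc : #H < 𝔠 := closure_lt hX
    have hHo : IsOpen (H : Set G) := isOpen_closure hS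
    have hcount : Countable (G ⧸ H) := by
      have hd : DiscreteTopology (G ⧸ H) := QuotientGroup.discreteTopology hHo
      have hsep : TopologicalSpace.SeparableSpace (G ⧸ H) :=
        (QuotientGroup.mk_surjective (s := H)).denseRange.separableSpace QuotientGroup.continuous_mk
      exact TopologicalSpace.separableSpace_iff_countable.1 hsep
    have hcard : #G = #(G ⧸ H) * #H := by
      rw [← Cardinal.mk_congr (Subgroup.groupEquivQuotientProdSubgroup (s := H)).symm]
      simp
    rw [hG] at hcard
    have h3 : #(G ⧸ H) ≤ ℵ₀ := Cardinal.mk_le_aleph0_iff.2 hcount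
    have h4 : #(G ⧸ H) * #H < 𝔠 :=
      Cardinal.mul_lt_of_lt Cardinal.aleph0_le_continuum
        (h3.trans_lt Cardinal.aleph0_lt_continuum) hHc
    rw [← hcard] at h4
    exact lt_irrefl _ h4

end

end Pool.Agent.Lib_MP_412c32_gt
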