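import Mathlib
import Pool.Agent.Lib_MP_412c32_gt.Defs
import Pool.Agent.Lib_MP_412c32_gt.Block

/-! `r_s(Sym(ℕ)) = 1`. -/

namespace Pool.Agent.Lib_MP_412c32_gt

open Function Filter Topology Cardinal

/-- `f ↦ (f, f⁻¹)` -/
def embPerm (f : Equiv.Perm ℕ) : (ℕ → ℕ) × (ℕ → ℕ) := (f, f.symm)

/-- The topology of pointwise convergence (of a permutation and of its inverse) on `Sym(ℕ)`. -/
@[instance_reducible]
def permTop : TopologicalSpace (Equiv.Perm ℕ) := TopologicalSpace.induced embPerm inferInstance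

theorem embPerm_injective : Injective embPerm := by
  intro f g h
  ext x
  exact congrFun (congrArg Prod.fst h) x

theorem continuous_eval : Continuous (fun p : (ℕ → ℕ) × ℕ => p.1 p.2) := by
  rw [continuous_prod_of_discrete_right]
  intro b
  exact continuous_apply b

theorem isClosed_range : IsClosed (Set.range embPerm) := by
  have h : Set.range embPerm = (⋂ x : ℕ, {p : (ℕ → ℕ) × (ℕ → ℕ) | p.1 (p.2 x) = x}) ∩
      (⋂ x : ℕ, {p : (ℕ → ℕ) × (ℕ → ℕ) | p.2 (p.1 x) = x}) := by
    ext ⟨f, g⟩
    simp only [Set.mem_range, Set.mem_inter_iff, Set.mem_iInter, Set.mem_ofPred_eq]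
    constructor
    · rintro ⟨e, he⟩
      have h1 : (e : ℕ → ℕ) = f := congrArg Prod.fst he
      have h2 : (e.symm : ℕ → ℕ) = g := congrArg Prod.snd he
      subst h1 h2
      exact ⟨fun x => e.apply_symm_apply x, fun x => e.symm_apply_apply x⟩
    · rintro ⟨h1, h2⟩
      exact ⟨⟨f, g, h2, h1⟩, rfl⟩
  rw [h]
  refine (isClosed_iInter fun x => ?_).inter (isClosed_iInter fun x => ?_)
  · refine isClosed_eq (continuous_eval.comp (continuous_fst.prodMk ((continuous_apply x).comp continuous_snd))) continuous_const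
  · refine isClosed_eq (continuous_eval.comp (continuous_snd.prodMk ((continuous_apply x).comp continuous_fst))) continuous_const

theorem exists_stab (t : TopologicalSpace (Equiv.Perm ℕ)) (ht : IsTopologicalGroup (Equiv.Perm ℕ))
    (hs : Tendsto s atTop (𝓝 1)) (A : Set (Equiv.Perm ℕ)) (hA : IsOpen A) (f : Equiv.Perm ℕ)
    (hf : f ∈ A) : ∃ n, ∀ g : Equiv.Perm ℕ, (∀ x < n, g x = x) → f * g ∈ A := by
  by_contra hcon
  push Not at hcon
  choose y hy1 hy2 using hcon
  have h1 := tendsto_of_fix t ht hs y hy1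
  have h2 : Tendsto (fun n => f * y n) atTop (𝓝 (f * 1)) := h1.const_mul f
  rw [mul_one] at h2
  obtain ⟨n, hn⟩ := (h2.eventually (hA.mem_nhds hf)).exists
  exact hy2 n hn

section
attribute [local instance] permTop

theorem isInducing_emb : IsInducing embPerm := ⟨rfl⟩

theorem isClosedEmbedding_emb : IsClosedEmbedding embPerm :=
  ⟨⟨isInducing_emb, embPerm_injective⟩, isClosed_range⟩

theorem polish_perm : PolishSpace (Equiv.Perm ℕ) := isClosedEmbedding_emb.polishSpace

theorem t2_perm : T2Space (Equiv.Perm ℕ) := isClosedEmbedding_emb.isEmbedding.t2Space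

theorem continuous_app (x : ℕ) : Continuous (fun f : Equiv.Perm ℕ => f x) :=
  (continuous_apply x).comp (continuous_fst.comp isInducing_emb.continuous)

theorem continuous_symm_app (x : ℕ) : Continuous (fun f : Equiv.Perm ℕ => f.symm x) :=
  (continuous_apply x).comp (continuous_snd.comp isInducing_emb.continuous)

theorem topGroup_perm : IsTopologicalGroup (Equiv.Perm ℕ) where
  continuous_mul := by
    rw [isInducing_emb.continuous_iff]
    have c1 : Continuous (fun p : Equiv.Perm ℕ × Equiv.Perm ℕ => (p.1 : ℕ → ℕ)) :=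
      continuous_fst.comp (isInducing_emb.continuous.comp continuous_fst)
    have c2 : Continuous (fun p : Equiv.Perm ℕ × Equiv.Perm ℕ => (p.2.symm : ℕ → ℕ)) :=
      continuous_snd.comp (isInducing_emb.continuous.comp continuous_snd)
    refine Continuous.prodMk ?_ ?_
    · refine continuous_pi fun x => ?_
      exact continuous_eval.comp (c1.prodMk ((continuous_app x).comp continuous_snd))
    · refine continuous_pi fun x => ?_
      exact continuous_eval.comp (c2.prodMk ((continuous_symm_app x).comp continuous_fst))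
  continuous_inv := by
    rw [isInducing_emb.continuous_iff]
    exact continuous_swap.comp isInducing_emb.continuous

theorem tendsto_perm_iff {w : ℕ → Equiv.Perm ℕ} (h : ∀ x, ∀ᶠ n in atTop, w n x = x) :
    Tendsto w atTop (𝓝 1) := by
  rw [isInducing_emb.tendsto_nhds_iff]
  have h1 : Tendsto (fun n => (w n : ℕ → ℕ)) atTop (𝓝 ((1 : Equiv.Perm ℕ) : ℕ → ℕ)) := by
    rw [tendsto_pi_nhds]
    intro x
    refine tendsto_const_nhds.congr' ?_
    filter_upwards [h x] with n hn
    rw [hn]; rfl
  have h2 : Tendsto (fun n => ((w n).symm : ℕ → ℕ)) atTop (𝓝 ((1 : Equiv.Perm ℕ).symm : ℕ → ℕ)) := by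
    rw [tendsto_pi_nhds]
    intro x
    refine tendsto_const_nhds.congr' ?_
    filter_upwards [h x] with n hn
    have : (w n).symm x = x := by rw [Equiv.symm_apply_eq, hn]
    rw [this]; rfl
  exact h1.prodMk_nhds h2

theorem tendsto_s : Tendsto s atTop (𝓝 1) := by
  apply tendsto_perm_iff
  intro x
  rcases h : om.symm x with ⟨⟨⟨k, L⟩, c⟩, i⟩
  filter_upwards [eventually_ge_atTop L.length] with n hn
  show om (u n (om.symm x)) = x
  have h2 : u n (om.symm x) = om.symm x := by
    rw [h]
    show (⟨((⟨k, L⟩ : Ty), c), act ⟨k, L⟩ n i⟩ : Om) = ⟨((⟨k, L⟩ : Ty), c), i⟩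
    have : act ⟨k, L⟩ n = 1 := List.getD_eq_default _ _ hn
    rw [this]; rfl
  rw [h2, Equiv.apply_symm_apply]

theorem not_discrete_perm : ¬ DiscreteTopology (Equiv.Perm ℕ) := by
  intro h
  have h1 : Tendsto (fun n : ℕ => Equiv.swap n (n+1)) atTop (𝓝 (1 : Equiv.Perm ℕ)) := by
    apply tendsto_perm_iff
    intro x
    filter_upwards [eventually_gt_atTop x] with n hn
    exact Equiv.swap_apply_of_ne_of_ne (by omega) (by omega)
  rw [nhds_discrete, tendsto_pure] at h1
  obtain ⟨n, hn⟩ := h1.exists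
  have := congrArg (fun f : Equiv.Perm ℕ => f n) hn
  simp at this

theorem ev_nhds (n : ℕ) (f : Equiv.Perm ℕ) : ∀ᶠ g in 𝓝 f, ∀ x ∈ Set.Iio n, g x = f x := by
  rw [Set.Finite.eventually_all (Set.finite_Iio n)]
  intro x _
  have h1 := (continuous_app x).tendsto f
  rw [nhds_discrete ℕ, tendsto_pure] at h1
  exact h1

theorem generates_s : Generates {s} permTop := by
  refine ⟨⟨topGroup_perm, t2_perm, ?_⟩, ?_⟩
  · intro u hu
    rw [Set.mem_singleton_iff] at hu
    subst hu
    exact tendsto_s
  · intro t ht A hA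
    have ht1 := ht.1
    have hs := ht.2.2 s rfl
    refine (@isOpen_iff_mem_nhds _ permTop A).2 fun f hf => ?_
    obtain ⟨n, hn⟩ := exists_stab t ht1 hs A hA f hf
    have hev := ev_nhds n f
    filter_upwards [hev] with g hg
    have : g = f * (f⁻¹ * g) := by simp
    rw [this]
    apply hn
    intro x hx
    rw [Equiv.Perm.mul_apply, hg x hx, Equiv.Perm.inv_eq_iff_eq]

end

/-- the discrete topology is a Hausdorff group topology -/
theorem admits_bot {G : Type*} [Group G] : Admits (∅ : Set (ℕ → G)) ⊥ := by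
  let : TopologicalSpace G := ⊥
  have : DiscreteTopology G := ⟨rfl⟩
  refine ⟨?_, ?_, fun u hu => absurd hu (Set.notMem_empty u)⟩
  · exact { continuous_mul := continuous_of_discreteTopology
            continuous_inv := continuous_of_discreteTopology }
  · infer_instance

theorem rs_ne_zero_mem {G : Type*} [Group G] {τ : TopologicalSpace G}
    (hτ : ¬ @DiscreteTopology G τ) {κ : Cardinal}
    (hκ : κ ∈ {κ | ∃ S : Set (ℕ → G), #S = κ ∧ Generates S τ}) : κ ≠ 0 := by
  obtain ⟨S, hS, hgen⟩ := hκ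
  rintro rfl
  rw [Cardinal.mk_eq_zero_iff, Set.isEmpty_coe_sort] at hS
  subst hS
  apply hτ
  have h1 : ∀ A : Set G, IsOpen[τ] A := fun A => hgen.2 ⊥ admits_bot A trivial
  exact @discreteTopology_iff_forall_isOpen G τ |>.2 h1

theorem rs_perm : rs permTop = 1 := by
  have hmem : (1 : Cardinal) ∈ {κ | ∃ S : Set (ℕ → Equiv.Perm ℕ), #S = κ ∧ Generates S permTop} :=
    ⟨{s}, Cardinal.mk_singleton s, generates_s⟩
  apply le_antisymm
  · exact csInf_le' hmem
  · refine le_csInf ⟨1, hmem⟩ fun κ hκ => ?_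
    exact Cardinal.one_le_iff_ne_zero.2 (rs_ne_zero_mem not_discrete_perm hκ)

end Pool.Agent.Lib_MP_412c32_gt
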